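import Pool.Agent.Y998.LQ.Defs2
import Pool.Agent.Y259.PD.BOX

/-!
# Project LQ, job TYP: choice of the parameters
-/

set_option autoImplicit false

namespace Pool.Agent.Y514.LQ

open Finset Equiv Filter Topology Pool.Agent.Y998.ST Pool.Agent.Y998.CN Pool.Agent.Y998.LP
open Pool.Agent.Y998.LQ

/-- a box around `v` -/
theorem box_at (d L : ℕ) [NeZero L] (m : ℕ) (hm : 1 ≤ m) (hmL : m ≤ L) (v : Fin d → ZMod L) :
    ∃ Q : Finset (Fin d → ZMod L), Q.card = m ^ d ∧ v ∈ Q ∧ ∀ x ∈ Q, tdist x v ≤ d * m := by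
  obtain ⟨Q, hQ, hQd⟩ := Pool.Agent.Y259.PD.BOX.main d L m hm hmL
  have hne : Q.Nonempty := by
    rw [← card_pos, hQ]
    positivity
  obtain ⟨q, hq⟩ := hne
  refine ⟨Q.image (fun x => x + (v - q)), ?_, ?_, ?_⟩
  · rw [card_image_of_injective _ (add_left_injective _), hQ]
  · exact mem_image.2 ⟨q, hq, add_sub_cancel q v⟩
  · intro x hx
    obtain ⟨z, hz, rfl⟩ := mem_image.1 hx
    refine le_trans (le_of_eq ?_) (hQd z hz q hq)
    unfold tdist Pool.Agent.Y661.PD.tdist
    refine sum_congr rfl fun i _ => ?_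
    have e : (z + (v - q)) i - v i = z i - q i := by
      simp only [Pi.add_apply, Pi.sub_apply]
      ring
    rw [e]

theorem exp_le_one {V : Type} [Fintype V] [DecidableEq V] (J : V → V → ℝ) (t : ℝ) (ht : 0 ≤ t)
    (hJ : ∀ x y, 0 ≤ J x y) (v : V) (K : ℕ) :
    stirExp J t (fun g => if cycleLen g v ≤ K then 1 else 0) ≤ 1 := by
  unfold stirExp
  refine le_trans (sum_le_sum fun g _ => ?_) (le_of_eq (law_sum J t))
  have h := law_nonneg hJ ht g
  show stirLaw J t g * (if cycleLen g v ≤ K then 1 else 0) ≤ stirLaw J t g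
  split_ifs <;> linarith

theorem exp_zero {V : Type} [Fintype V] [DecidableEq V] (J : V → V → ℝ) (t : ℝ) (v : V) :
    stirExp J t (fun g => if cycleLen g v ≤ 0 then 1 else 0) = 0 := by
  unfold stirExp
  refine sum_eq_zero fun g _ => ?_
  have h : ¬ cycleLen g v ≤ 0 := by
    unfold cycleLen
    rw [not_le]
    have : Nonempty {w : V // g.SameCycle v w} := ⟨⟨v, Perm.SameCycle.refl g v⟩⟩
    exact Nat.card_pos
  show stirLaw J t g * (if cycleLen g v ≤ 0 then 1 else 0) = 0
  rw [if_neg h, mul_zero]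

theorem t_TYP (hSHORT : Pool.Agent.Y998.LQ.S_SHORT) (hDST : Pool.Agent.Y998.LQ.S_DST) :
    Pool.Agent.Y998.LQ.S_TYP := by
  intro d hd
  obtain ⟨C0, hC0, hD⟩ := hDST d hd
  refine ⟨4 + 8 * C0 * d, by positivity, ?_⟩
  intro L _ hL t ht v K
  have hL0 : (0 : ℝ) < L := by
    have : 0 < L := by omega
    exact_mod_cast this
  set T : ℝ := min t ((L : ℝ) ^ 2) with hT
  have hT0 : 0 < T := lt_min ht (by positivity)
  have hJ : ∀ x y, 0 ≤ nnRate d L x y := nn_nonneg
  rcases Nat.eq_zero_or_pos K with hK | hK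
  · subst hK
    rw [exp_zero]
    positivity
  have hKr : (1 : ℝ) ≤ K := by exact_mod_cast hK
  have hd1 : (1 : ℝ) ≤ d := by exact_mod_cast hd
  set s : ℝ := Real.sqrt T with hs
  have hs0 : 0 < s := Real.sqrt_pos.2 hT0
  have hTs : T ^ ((d : ℝ) / 2) = s ^ d := by
    rw [hs, Real.sqrt_eq_rpow, ← Real.rpow_natCast, ← Real.rpow_mul hT0.le]
    congr 1
    ring
  rw [hTs]
  have hsd : 0 < s ^ d := pow_pos hs0 d
  set α : ℝ := (K : ℝ) / s ^ d with hα
  have hα0 : 0 < α := by positivity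
  set y : ℝ := α ^ (1 / ((d : ℝ) + 1)) with hy
  have hy0 : 0 < y := Real.rpow_pos_of_pos hα0 _
  have hyp : y ^ (d + 1) = α := by
    rw [hy, ← Real.rpow_natCast, ← Real.rpow_mul hα0.le]
    push_cast
    rw [one_div, inv_mul_cancel₀ (by positivity), Real.rpow_one]
  have hKe : y ^ (d + 1) * s ^ d = K := by
    rw [hyp, hα]
    field_simp
  have hCd : 0 ≤ C0 * d := by positivity
  rcases le_or_gt (1 / 4) y with h4 | h4
  · refine (exp_le_one _ t ht.le hJ v K).trans ?_
    nlinarith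
  -- the main case
  have hy1 : y < 1 := by linarith
  have hyd1 : y ^ (d + 1) < 1 := pow_lt_one₀ hy0.le hy1 (by omega)
  have hs1 : 1 ≤ s := by
    by_contra hcon
    push Not at hcon
    have h1 : s ^ d ≤ 1 := pow_le_one₀ hs0.le hcon.le
    nlinarith
  set u : ℝ := y * s with hu
  have hu0 : 0 < u := by positivity
  have hup : u ^ (d + 1) = K * s := by
    rw [hu, mul_pow, pow_succ s, ← mul_assoc, hKe]
  have hu1 : 1 ≤ u := by
    by_contra hcon
    push Not at hcon
    have h1 : u ^ (d + 1) < 1 := pow_lt_one₀ hu0.le hcon (by omega)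
    nlinarith
  have hsL : s ≤ L := by
    rw [hs]
    refine (Real.sqrt_le_sqrt (min_le_right _ _)).trans (le_of_eq ?_)
    exact Real.sqrt_sq hL0.le
  have hst : s ≤ Real.sqrt t := Real.sqrt_le_sqrt (min_le_left _ _)
  have ht0 : 0 < Real.sqrt t := Real.sqrt_pos.2 ht
  set m : ℕ := ⌊4 * u⌋₊ with hm
  have hm1 : (m : ℝ) ≤ 4 * u := Nat.floor_le (by positivity)
  have hm2 : 4 * u < m + 1 := Nat.lt_floor_add_one _
  have hm3 : 3 * u ≤ m := by linarith
  have hmpos : 1 ≤ m := by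
    have : (1 : ℝ) ≤ m := by linarith
    exact_mod_cast this
  have hmL : m ≤ L := by
    have h1 : 4 * u ≤ s := by rw [hu]; nlinarith
    have : (m : ℝ) ≤ L := by linarith
    exact_mod_cast this
  set k : ℕ := ⌊1 / y⌋₊ with hk
  have hk1 : (k : ℝ) ≤ 1 / y := Nat.floor_le (by positivity)
  have hk2 : 1 / y < k + 1 := Nat.lt_floor_add_one _
  have hk3 : 1 / ((k : ℝ) + 1) ≤ y := by
    rw [div_le_iff₀ (by positivity)]
    rw [div_lt_iff₀ hy0] at hk2
    linarith
  obtain ⟨Q, hQ, hvQ, hQd⟩ := box_at d L m hmpos hmL v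
  -- the cardinality
  have hud : 1 ≤ u ^ d := one_le_pow₀ hu1
  have hcard : k * (2 * K) + 1 ≤ m ^ d := by
    have h1 : (k : ℝ) * y ≤ 1 := by rwa [le_div_iff₀ hy0] at hk1
    have h2 : (K : ℝ) = u ^ d * y := by
      rw [← hKe, hu, mul_pow, pow_succ]
      ring
    have h3 : (k : ℝ) * (2 * K) ≤ 2 * u ^ d := by
      rw [h2]
      have h4 : 0 ≤ u ^ d := by positivity
      nlinarith
    have h5 : (3 * u) ^ d ≤ (m : ℝ) ^ d := pow_le_pow_left₀ (by positivity) hm3 d
    have h6 : (3 : ℝ) ≤ 3 ^ d := by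
      calc (3 : ℝ) = 3 ^ 1 := by norm_num
        _ ≤ 3 ^ d := pow_le_pow_right₀ (by norm_num) hd
    have h7 : 3 * u ^ d ≤ (3 * u) ^ d := by
      rw [mul_pow (3 : ℝ) u d]
      exact mul_le_mul_of_nonneg_right h6 (by positivity)
    have h8 : (k : ℝ) * (2 * K) + 1 ≤ (m : ℝ) ^ d := by linarith
    exact_mod_cast h8
  have hcard2 : Fintype.card (Fin k × Fin (2 * K)) ≤ Fintype.card {x // x ∈ Q.erase v} := by
    rw [Fintype.card_prod, Fintype.card_fin, Fintype.card_fin, Fintype.card_coe,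
      card_erase_of_mem hvQ, hQ]
    omega
  obtain ⟨e⟩ := Function.Embedding.nonempty_of_card_le hcard2
  have key := hSHORT (Fin d → ZMod L) (nnRate d L) t ht.le hJ v K (2 * K) k le_rfl
    (fun p => (e p : Fin d → ZMod L)) (fun p q h => e.injective (Subtype.ext h))
    (fun p => (mem_erase.1 (e p).2).1) (C0 * (d * m) / Real.sqrt t) (by positivity) (by
      intro p
      rw [swap_comm]
      refine (hD L hL t ht _ v).trans ?_
      refine div_le_div_of_nonneg_right ?_ ht0.le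
      refine mul_le_mul_of_nonneg_left ?_ hC0.le
      exact_mod_cast hQd _ (mem_erase.1 (e p).2).2)
  refine key.trans ?_
  have hη : C0 * (d * m) / Real.sqrt t ≤ 4 * (C0 * d) * y := by
    rw [div_le_iff₀ ht0]
    have h1 : (m : ℝ) ≤ 4 * y * Real.sqrt t := by
      have h2 : 4 * u ≤ 4 * y * Real.sqrt t := by
        rw [hu]
        have := mul_le_mul_of_nonneg_left hst hy0.le
        linarith
      linarith
    have h3 := mul_le_mul_of_nonneg_left h1 hCd
    calc C0 * (d * m) = C0 * d * m := by ring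
      _ ≤ _ := h3
      _ = _ := by ring
  have : 0 ≤ C0 * d * y := by positivity
  linarith

end Pool.Agent.Y514.LQ
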